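import Pool.Agent.H327.WR.Main
import Pool.Agent.H327.WR.TreeT
import Pool.Agent.H327.WR.NodesN
import Pool.Agent.H327.WR.GadgetG

/-!
# Trees of large diameter all of whose Wiener roots are rational (Q2)

For every even number `D ≥ 6` there is a tree of diameter exactly `D` all of whose Wiener roots are
rational. In particular there are such trees of arbitrarily large diameter.

The trees have two adjacent centres which carry many small branches, and `ν ^ 2` vertices. The Wiener
polynomial is, with `G = c ∏ (X + a_i)` and rational numbers `e, κ, c` and integers `a_i`,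
`(ν² - 1) X (1 + X) (1 + e² + 2 e X) G² (κ (1 - X) + ν² X)`.
-/

set_option autoImplicit false

open Polynomial

namespace Pool.Agent.Results.MP_96b1db_co.Trees

/-- The Wiener polynomial of a graph with vertex set `Fin n`: the sum of `X ^ d(u, v)` over the unordered
pairs of distinct vertices `u, v` (every pair is counted once, with `u < v`). -/
noncomputable def wiener {n : ℕ} (G : SimpleGraph (Fin n)) : ℤ[X] :=
  ∑ u : Fin n, ∑ v ∈ Finset.Ioi u, X ^ G.dist u v

/-- All complex roots of the Wiener polynomial are rational. -/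
def AllWienerRootsRational {n : ℕ} (G : SimpleGraph (Fin n)) : Prop :=
  ∀ z : ℂ, aeval z (wiener G) = 0 → ∃ q : ℚ, z = q

theorem coeff_wiener {n : ℕ} (G : SimpleGraph (Fin n)) (k : ℕ) :
    (wiener G).coeff k = ∑ u : Fin n, ∑ v ∈ Finset.Ioi u, if k = G.dist u v then 1 else 0 := by
  unfold wiener
  rw [finsetSum_coeff]
  refine Finset.sum_congr rfl fun u _ => ?_
  rw [finsetSum_coeff]
  exact Finset.sum_congr rfl fun v _ => coeff_X_pow _ _

theorem natDegree_Nd (m : ℕ) : (Pool.Agent.H327.WR.Nd m).natDegree = m := by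
  unfold Pool.Agent.H327.WR.Nd
  rw [natDegree_prod_of_monic _ _ (fun i _ => monic_X_add_C _)]
  simp only [natDegree_X_add_C, Finset.sum_const, Finset.card_range, smul_eq_mul, mul_one]

theorem Nd_ne_zero (m : ℕ) : Pool.Agent.H327.WR.Nd m ≠ 0 := by
  unfold Pool.Agent.H327.WR.Nd
  exact (monic_prod_of_monic _ _ (fun i _ => monic_X_add_C _)).ne_zero

theorem natDegree_PP (m : ℕ) {e κ c ν : ℚ} (he : 0 < e) (hc : 0 < c) (hν : κ < ν ^ 2)
    (hν1 : 1 < ν) : (Pool.Agent.H327.WR.PP e κ (C c * Pool.Agent.H327.WR.Nd m) ν).natDegree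
      = 2 * m + 4 := by
  have h1 : ν ^ 2 - 1 ≠ 0 := by nlinarith
  have h2 : ν ^ 2 - κ ≠ 0 := by linarith
  have h3 : 2 * e ≠ 0 := by linarith
  have e1 : Pool.Agent.H327.WR.PP e κ (C c * Pool.Agent.H327.WR.Nd m) ν
      = C (ν ^ 2 - 1) * (X * ((X + C 1) * ((C (2 * e) * X + C (1 + e ^ 2))
        * ((C c * Pool.Agent.H327.WR.Nd m) ^ 2 * (C (ν ^ 2 - κ) * X + C κ))))) := by
    unfold Pool.Agent.H327.WR.PP
    rw [C_1, C_sub (a := ν ^ 2) (b := κ)]
    ring
  have n1 : (C (ν ^ 2 - κ) * X + C κ : ℚ[X]).natDegree = 1 := natDegree_linear h2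
  have n2 : (C (2 * e) * X + C (1 + e ^ 2) : ℚ[X]).natDegree = 1 := natDegree_linear h3
  have z1 : (C (ν ^ 2 - κ) * X + C κ : ℚ[X]) ≠ 0 := by
    intro h; rw [h] at n1; simp at n1
  have z2 : (C (2 * e) * X + C (1 + e ^ 2) : ℚ[X]) ≠ 0 := by
    intro h; rw [h] at n2; simp at n2
  have n3 : ((C c * Pool.Agent.H327.WR.Nd m) ^ 2).natDegree = 2 * m := by
    rw [natDegree_pow, natDegree_C_mul hc.ne', natDegree_Nd]
  have z3 : (C c * Pool.Agent.H327.WR.Nd m) ^ 2 ≠ 0 :=
    pow_ne_zero _ (mul_ne_zero (C_ne_zero.mpr hc.ne') (Nd_ne_zero m))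
  have n4 : (X + C 1 : ℚ[X]).natDegree = 1 := natDegree_X_add_C 1
  have z4 : (X + C 1 : ℚ[X]) ≠ 0 := X_add_C_ne_zero 1
  rw [e1, natDegree_C_mul h1, natDegree_mul X_ne_zero
    (mul_ne_zero z4 (mul_ne_zero z2 (mul_ne_zero z3 z1))),
    natDegree_mul z4 (mul_ne_zero z2 (mul_ne_zero z3 z1)), natDegree_mul z2 (mul_ne_zero z3 z1),
    natDegree_mul z3 z1, n1, n2, n3, n4, natDegree_X]
  ring

theorem roots_PP (m : ℕ) {e κ c ν : ℚ} (he : 0 < e) (hc : 0 < c) (hν : κ < ν ^ 2)
    (hν1 : 1 < ν) (z : ℂ)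
    (hz : aeval z (Pool.Agent.H327.WR.PP e κ (C c * Pool.Agent.H327.WR.Nd m) ν) = 0) :
    ∃ q : ℚ, z = q := by
  unfold Pool.Agent.H327.WR.PP Pool.Agent.H327.WR.Nd at hz
  simp only [map_mul, map_add, map_sub, map_pow, map_one, map_prod, aeval_X, aeval_C,
    eq_ratCast] at hz
  have h1 : ((ν : ℂ)) ^ 2 - 1 ≠ 0 := by
    have : ν ^ 2 - 1 ≠ 0 := by nlinarith
    exact_mod_cast this
  rcases mul_eq_zero.mp hz with hz | hz
  · exact absurd hz h1
  rcases mul_eq_zero.mp hz with hz | hz
  · rcases mul_eq_zero.mp hz with hz | hz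
    · rcases mul_eq_zero.mp hz with hz | hz
      · rcases mul_eq_zero.mp hz with hz | hz
        · exact ⟨0, by simpa using hz⟩
        · exact ⟨-1, by push_cast; linear_combination hz⟩
      · refine ⟨-(1 + e ^ 2) / (2 * e), ?_⟩
        have h2 : (2 * (e : ℂ)) ≠ 0 := by
          have : 2 * e ≠ 0 := by linarith
          exact_mod_cast this
        push_cast
        rw [eq_div_iff h2]
        push_cast at hz
        linear_combination hz
    · have hz := pow_eq_zero_iff (two_ne_zero) |>.mp hz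
      rcases mul_eq_zero.mp hz with hz | hz
      · exact absurd (by exact_mod_cast hz) hc.ne'
      · obtain ⟨i, _, hi⟩ := Finset.prod_eq_zero_iff.mp hz
        refine ⟨-((4 * m + i : ℕ) : ℚ), ?_⟩
        push_cast at hi ⊢
        linear_combination hi
  · refine ⟨-κ / (ν ^ 2 - κ), ?_⟩
    have h2 : ((ν : ℂ) ^ 2 - κ) ≠ 0 := by
      have : ν ^ 2 - κ ≠ 0 := by linarith
      exact_mod_cast this
    push_cast
    rw [eq_div_iff h2]
    linear_combination hz

theorem even_diameter (m : ℕ) (hm : 3 ≤ m) :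
    ∃ (n : ℕ) (G : SimpleGraph (Fin n)), G.IsTree ∧
      (∀ u v, G.dist u v ≤ 2 * m) ∧ (∃ u v, G.dist u v = 2 * m) ∧ wiener G ≠ 0 ∧
      AllWienerRootsRational G := by
  obtain ⟨n, G, e, κ, c, ν, hG, he, _, hc, hν, hν1, hW⟩ :=
    Pool.Agent.H327.WR.final Pool.Agent.H550.WR.T Pool.Agent.H331.WR.G Pool.Agent.H695.WR.N
      (m - 2) (by omega)
  have hw : Pool.Agent.H327.WR.wiener G = wiener G := rfl
  rw [hw] at hW
  have hd : (wiener G).natDegree = 2 * m := by
    rw [← natDegree_map_eq_of_injective (Int.castRingHom ℚ).injective_int (wiener G), hW,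
      natDegree_PP _ he hc hν hν1]
    omega
  have h0 : wiener G ≠ 0 := by
    intro h
    rw [h, natDegree_zero] at hd
    omega
  refine ⟨n, G, hG, ?_, ?_, h0, ?_⟩
  · have key : ∀ u v, u < v → G.dist u v ≤ 2 * m := by
      intro u v huv
      rw [← hd]
      apply le_natDegree_of_ne_zero
      rw [coeff_wiener]
      have p1 : ∀ a ∈ (Finset.univ : Finset (Fin n)),
          (0 : ℤ) ≤ ∑ b ∈ Finset.Ioi a, if G.dist u v = G.dist a b then 1 else 0 :=
        fun a _ => Finset.sum_nonneg fun b _ => by split_ifs <;> norm_num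
      have p2 := Finset.single_le_sum p1 (Finset.mem_univ u)
      have p3 : ∀ b ∈ Finset.Ioi u, (0 : ℤ) ≤ if G.dist u v = G.dist u b then 1 else 0 :=
        fun b _ => by split_ifs <;> norm_num
      have p4 := Finset.single_le_sum p3 (Finset.mem_Ioi.mpr huv)
      rw [if_pos rfl] at p4
      have p5 := le_trans p4 p2
      intro h
      rw [h] at p5
      norm_num at p5
    intro u v
    rcases lt_trichotomy u v with h | h | h
    · exact key u v h
    · rw [h, SimpleGraph.dist_self]; exact Nat.zero_le _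
    · rw [SimpleGraph.dist_comm]; exact key v u h
  · by_contra hcon
    push Not at hcon
    have h1 : (wiener G).coeff (2 * m) ≠ 0 := by
      rw [← hd]
      exact leadingCoeff_ne_zero.mpr h0
    apply h1
    rw [coeff_wiener]
    refine Finset.sum_eq_zero fun u _ => Finset.sum_eq_zero fun v _ => ?_
    rw [if_neg (Ne.symm (hcon u v))]
  · intro z hz
    apply roots_PP (m - 2) he hc hν hν1 z
    rw [← hW]
    have h2 := aeval_map_algebraMap ℚ z (wiener G)
    rw [hz] at h2
    exact h2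

/-- **Main result (answer to Q2: yes).** For every even `D ≥ 6` there is a tree of diameter exactly `D` all
of whose Wiener roots are rational; in particular there are such trees of arbitrarily large diameter. -/
theorem result (D : ℕ) (hD : Even D) (h6 : 6 ≤ D) :
    ∃ (n : ℕ) (G : SimpleGraph (Fin n)), G.IsTree ∧
      (∀ u v, G.dist u v ≤ D) ∧ (∃ u v, G.dist u v = D) ∧ wiener G ≠ 0 ∧
      AllWienerRootsRational G := by
  obtain ⟨m, rfl⟩ := hD
  rw [← two_mul]
  exact even_diameter m (by omega)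

end Pool.Agent.Results.MP_96b1db_co.Trees
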